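import Pool.Agent.RM.Raw

set_option autoImplicit false

namespace Pool.Agent.Results.MP_d63900_lc.WeakCompleteness

open Pool.Agent.RM

/-- Every model `(M, S)` of RCA₀ satisfies the Weak Completeness Theorem for `S4.2`; by the
completeness theorem for first-order logic, this says that the Weak Completeness Theorem for
`S4.2` is provable in RCA₀. -/
theorem result (M : Type*) [Zero M] [One M] [Add M] [Mul M] [LT M] (S : Set (Set M))
    (h : IsModelRCA0 M S) : WeakCompletenessS42 M S :=
  weakCompleteness_raw h

end Pool.Agent.Results.MP_d63900_lc.WeakCompleteness
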